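import Pool.Agent.V5helper27.BM.Stm
import Pool.Agent.R250.MC2

/-! # Project BM, jobs GOL and LIP -/

set_option autoImplicit false

open Complex Filter Topology Set Metric MeasureTheory

namespace Pool.Agent.V5helper6.BM

open Pool.Agent.V5helper27.BM
open Pool.Agent.W677.Mar (Sg hat NN NN_mul NN_diff toSg exists_log log_diff area_log hasSum_log
  hat_ne hat_deriv hat_diff Hol inv_ext isOpen_ext lam)

theorem sgOf {ψ h : ℂ → ℂ} (hs : IsSig ψ h) : Sg (hat (fun z => ψ z / z) 1) (hat h 0) :=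
  toSg hs.1 hs.2.1 hs.2.2.1 hs.2.2.2.1 hs.2.2.2.2.1 hs.2.2.2.2.2

/-- Cauchy-Schwarz for two points -/
theorem log_bound2 {Y H : ℂ → ℂ} (S : Sg Y H) {ζ : ℂ} (hζ0 : ζ ≠ 0) (hζ : ζ ∈ ball (0 : ℂ) 1)
    {A : ℂ → ℂ} (hA : DifferentiableOn ℂ A (ball 0 1)) (hA0 : A 0 = 0)
    (hAe : ∀ z ∈ ball (0 : ℂ) 1, Complex.exp (A z) = NN Y ζ z) {w : ℂ} (hw : w ∈ ball (0 : ℂ) 1) :
    ‖A w‖ ≤ Real.sqrt (-Real.log (1 - ‖w‖ ^ 2) * -Real.log (1 - ‖ζ‖ ^ 2)) := by
  have hn : ‖w‖ < 1 := mem_ball_zero_iff.1 hw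
  have hp : 0 ≤ ‖w‖ := norm_nonneg w
  have hx1 : ‖w‖ ^ 2 < 1 := pow_lt_one₀ hp hn two_ne_zero
  have hnζ : ‖ζ‖ < 1 := mem_ball_zero_iff.1 hζ
  have hx2 : ‖ζ‖ ^ 2 < 1 := pow_lt_one₀ (norm_nonneg _) hnζ two_ne_zero
  obtain ⟨L, hL⟩ : ∃ L, L = -Real.log (1 - ‖w‖ ^ 2) := ⟨_, rfl⟩
  obtain ⟨L', hL'⟩ : ∃ L', L' = -Real.log (1 - ‖ζ‖ ^ 2) := ⟨_, rfl⟩
  have hL0 : 0 ≤ L := by
    rw [hL]
    have := Real.log_nonpos (by linarith : 0 ≤ 1 - ‖w‖ ^ 2) (by nlinarith)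
    linarith
  have hL0' : 0 ≤ L' := by
    rw [hL']
    have := Real.log_nonpos (by linarith : 0 ≤ 1 - ‖ζ‖ ^ 2) (by nlinarith [norm_nonneg ζ])
    linarith
  set c : ℕ → ℂ := fun n => (n.factorial : ℂ)⁻¹ * iteratedDeriv n A 0 with hcdef
  have hc : ∀ z ∈ ball (0:ℂ) 1, HasSum (fun j => c j * z ^ j) (A z) := by
    intro z hz
    have h1 := Complex.hasSum_taylorSeries_on_ball hA hz
    refine h1.congr_fun ?_ |> fun h => h
    intro n
    simp only [hcdef, smul_eq_mul, sub_zero]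
    ring
  have hc0 : c 0 = 0 := by
    simp [hcdef, hA0]
  rw [← hL, ← hL']
  have hpart : ∀ N : ℕ, ‖∑ k ∈ Finset.range N, c k * w ^ k‖ ≤ Real.sqrt (L * L') := by
    intro N
    have h1 : ‖∑ k ∈ Finset.range N, c k * w ^ k‖ ≤
        ∑ k ∈ Finset.range N, (Real.sqrt k * ‖c k‖) * (‖w‖ ^ k / Real.sqrt k) := by
      refine (norm_sum_le _ _).trans (Finset.sum_le_sum fun k _ => ?_)
      rw [norm_mul, norm_pow]
      rcases Nat.eq_zero_or_pos k with h | h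
      · rw [h, hc0]
        simp
      · have hk : Real.sqrt k ≠ 0 := by
          have : (0 : ℝ) < k := by exact_mod_cast h
          positivity
        apply le_of_eq
        field_simp
    have h2 := Finset.sum_mul_sq_le_sq_mul_sq (Finset.range N) (fun k : ℕ => Real.sqrt k * ‖c k‖)
      (fun k : ℕ => ‖w‖ ^ k / Real.sqrt k)
    have h3 : ∑ k ∈ Finset.range N, (Real.sqrt (k : ℝ) * ‖c k‖) ^ 2 ≤ L' := by
      have := area_log S hζ0 hζ hA hAe hc N
      rw [← hL'] at this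
      refine le_trans (le_of_eq (Finset.sum_congr rfl fun k _ => ?_)) this
      rw [mul_pow, Real.sq_sqrt (Nat.cast_nonneg k)]
    have h4 : ∑ k ∈ Finset.range N, (‖w‖ ^ k / Real.sqrt (k : ℝ)) ^ 2 ≤ L := by
      have h5 := hasSum_log (by positivity) hx1
      rw [← hL] at h5
      refine le_trans (le_of_eq (Finset.sum_congr rfl fun k _ => ?_)) (sum_le_hasSum
        (Finset.range N) (fun k _ => by positivity) h5)
      rw [div_pow, Real.sq_sqrt (Nat.cast_nonneg k), ← pow_mul, ← pow_mul, mul_comm]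
    refine h1.trans (Real.le_sqrt_of_sq_le (h2.trans ?_))
    rw [mul_comm L L']
    exact mul_le_mul h3 h4 (Finset.sum_nonneg fun k _ => sq_nonneg _) hL0'
  exact le_of_tendsto ((hc w hw).tendsto_sum_nat.norm) (Eventually.of_forall hpart)

theorem LR_eq {R : ℝ} (hR : 1 < R) : LR R = -Real.log (1 - R⁻¹ ^ 2) := by
  have := Pool.Agent.R250.MC.lam_R hR
  rw [LR, ← this, lam]

/-- GOL -/
theorem gol : S_gol := by
  intro ψ h hs z₀ hz₀
  have S := sgOf hs
  have hz₀0 : z₀ ≠ 0 := by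
    intro h0
    rw [h0, norm_zero] at hz₀
    linarith
  have hζ0 : z₀⁻¹ ≠ 0 := inv_ne_zero hz₀0
  have hζ : z₀⁻¹ ∈ ball (0 : ℂ) 1 := by
    rw [mem_ball_zero_iff, norm_inv]
    exact inv_lt_one_of_one_lt₀ hz₀
  obtain ⟨f, hf, hfe, hf0⟩ := exists_log S
  have hAc : ContinuousOn (fun z => f (z₀⁻¹, z)) (ball 0 1) := by
    apply hf.comp (by fun_prop)
    intro w hw
    exact ⟨hζ, hw⟩
  have hAd : DifferentiableOn ℂ (fun z => f (z₀⁻¹, z)) (ball 0 1) :=
    log_diff isOpen_ball hAc (NN_diff S.G.diff hζ) (fun z hz => hfe _ hζ z hz)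
  have hin : ∀ z ∈ Ex, z ≠ 0 ∧ z⁻¹ ∈ ball (0 : ℂ) 1 := by
    intro z hz
    have hz' : 1 < ‖z‖ := hz
    refine ⟨?_, ?_⟩
    · intro h0
      rw [h0, norm_zero] at hz'
      linarith
    · rw [mem_ball_zero_iff, norm_inv]
      exact inv_lt_one_of_one_lt₀ hz'
  refine ⟨fun z => f (z₀⁻¹, z⁻¹), ?_, ?_, ?_⟩
  · apply hAd.comp (g := fun z => f (z₀⁻¹, z)) (f := fun z : ℂ => z⁻¹)
    · intro z hz
      exact (differentiableAt_inv (hin z hz).1).differentiableWithinAt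
    · intro z hz
      exact (hin z hz).2
  · intro z hz
    obtain ⟨hz0, hzb⟩ := hin z hz
    show Complex.exp (f (z₀⁻¹, z⁻¹)) * (z - z₀) = ψ z - ψ z₀
    rw [hfe _ hζ _ hzb]
    have h1 := NN_mul (hat (fun z => ψ z / z) 1) z₀⁻¹ z⁻¹
    rw [hat_ne _ _ hζ0, hat_ne _ _ (inv_ne_zero hz0), inv_inv, inv_inv] at h1
    have h2 : (z - z₀) = (z⁻¹ - z₀⁻¹) * (-(z * z₀)) := by
      field_simp
      ring
    rw [h2, ← mul_assoc, h1]
    field_simp
    ring
  · intro z hz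
    obtain ⟨hz0, hzb⟩ := hin z hz
    have h1 := log_bound2 S hζ0 hζ hAd (hf0 _ hζ) (fun z hz => hfe _ hζ z hz) hzb
    rw [norm_inv, norm_inv, ← LR_eq hz, ← LR_eq hz₀] at h1
    exact h1

/-- GOL1 -/
theorem gol1 : S_gol1 := by
  intro ψ h hs z hz
  exact Pool.Agent.R250.MC.goluzin_ext (sgOf hs) hz rfl

/-- LIP -/
theorem lip : S_lip := by
  intro ψ h hs x hx ζ ζ' hζ hζ'
  have S := sgOf hs
  have hH : Hol h 0 := ⟨hs.2.2.2.1, hs.2.2.2.2.2⟩
  have hnorm : ∀ u : ℂ, x ≤ u.re → 1 < ‖Complex.exp u‖ := by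
    intro u hu
    rw [Complex.norm_exp]
    exact Real.one_lt_exp_iff.2 (by linarith)
  have hd : ∀ u : ℂ, x ≤ u.re → HasDerivAt (fun u => h (Complex.exp u))
      (deriv h (Complex.exp u) * Complex.exp u) u := by
    intro u hu
    have h1 : HasDerivAt h (deriv h (Complex.exp u)) (Complex.exp u) :=
      (hs.2.2.2.1.differentiableAt (isOpen_ext.mem_nhds (hnorm u hu))).hasDerivAt
    exact h1.comp u (Complex.hasDerivAt_exp u)
  have hb : ∀ u : ℂ, x ≤ u.re → ‖deriv (fun u => h (Complex.exp u)) u‖ ≤ 3 / x := by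
    intro u hu
    rw [(hd u hu).deriv]
    have hy : 0 < u.re := by linarith
    have hv0 : Complex.exp (-u) ≠ 0 := Complex.exp_ne_zero _
    have hvn : ‖Complex.exp (-u)‖ = Real.exp (-u.re) := by
      rw [Complex.norm_exp, Complex.neg_re]
    have hvb : Complex.exp (-u) ∈ ball (0 : ℂ) 1 := by
      rw [mem_ball_zero_iff, hvn]
      exact Real.exp_lt_one_iff.2 (by linarith)
    have h1 := Pool.Agent.R250.MC.deriv_bound S hvb
    rw [hat_deriv hH hvb hv0, ← Complex.exp_neg, neg_neg, hvn, norm_mul, norm_neg,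
      Complex.norm_real] at h1
    set r := Real.exp (-u.re) with hr
    have hr0 : 0 < r := Real.exp_pos _
    have hr1 : r < 1 := Real.exp_lt_one_iff.2 (by linarith)
    have hr2 : 0 < 1 - r ^ 2 := by nlinarith
    rw [Real.norm_of_nonneg hr2.le] at h1
    rw [mul_comm (deriv h (Complex.exp u))]
    have hsinh := Real.self_le_sinh_iff.2 hy.le
    rw [Real.sinh_eq] at hsinh
    have hre : r * Real.exp u.re = 1 := by
      rw [hr, ← Real.exp_add, neg_add_cancel, Real.exp_zero]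
    have h2 : 2 * u.re * r ≤ 1 - r ^ 2 := by
      have h3 : 2 * u.re ≤ Real.exp u.re - r := by
        rw [hr]
        linarith
      have h4 := mul_le_mul_of_nonneg_right h3 hr0.le
      nlinarith
    set D := ‖Complex.exp u * deriv h (Complex.exp u)‖ with hD
    have hD0 : 0 ≤ D := norm_nonneg _
    have h5 : 2 * u.re * r * D ≤ 6 * r := (mul_le_mul_of_nonneg_right h2 hD0).trans h1
    have h6 : r * (u.re * D) ≤ r * 3 := by nlinarith
    have h7 : u.re * D ≤ 3 := le_of_mul_le_mul_left h6 hr0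
    rw [le_div_iff₀ hx]
    nlinarith
  have hconv : Convex ℝ {u : ℂ | x ≤ u.re} := convex_halfSpace_re_ge x
  have h1 := hconv.norm_image_sub_le_of_norm_deriv_le (𝕜 := ℂ) (f := fun u => h (Complex.exp u))
    (fun u hu => (hd u hu).differentiableAt) (fun u hu => hb u hu) hζ' hζ
  exact h1

end Pool.Agent.V5helper6.BM
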